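import Pool.Agent.H70.PT.Targets

/-!
# (IDN): the exponents of the upper bound
-/

set_option autoImplicit false

namespace Pool.Agent.H12.PT

open Pool.Agent.H70.PT

theorem pf_IDN : T_IDN := by
  intro b h1 h2
  have hb : 0 < b := by linarith
  have hb1 : 0 < 1 - b := by linarith
  have h3 : Real.log 3 ≠ 0 := (Real.log_pos (by norm_num)).ne'
  have h2' : Real.log 2 ≠ 0 := (Real.log_pos (by norm_num)).ne'
  have hq : 0 < b / (1 - b) := div_pos hb hb1
  have hq1 : 1 ≤ b / (1 - b) := by
    rw [le_div_iff₀ hb1]; linarith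
  have hq3 : b / (1 - b) ≤ 3 := by
    rw [div_le_iff₀ hb1]; linarith
  refine ⟨?_, ?_, ?_, ?_, ?_⟩
  · unfold sx ka mu H Real.logb
    rw [Real.log_div hb.ne' hb1.ne']
    field_simp
    ring
  · unfold sx
    exact Real.logb_nonneg (by norm_num) hq1
  · unfold sx
    rw [Real.logb_le_iff_le_rpow (by norm_num) hq]
    simpa using hq3
  · unfold sx
    exact Real.rpow_logb (by norm_num) (by norm_num) hq
  · unfold sx
    have : (3 / 4 : ℝ) / (1 - 3 / 4) = 3 := by norm_num
    rw [this]
    exact Real.logb_self_eq_one (by norm_num)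

end Pool.Agent.H12.PT
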