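import Pool.Agent.H70.PT.Targets2
import Pool.Agent.H51.RW.PAN

/-!
# (NSX): the computation with a large block of `0`
-/

set_option autoImplicit false

namespace Pool.Agent.H12.PT

open List Finset Pool.Agent.H75.RW Pool.Agent.H70.PT
open Pool.Agent.H68.TG hiding nx

theorem ps_tape (q : Bool × List Bool) (h : 2 ≤ (tape q).length)
    (h' : 2 ≤ (tape (pass q)).length) :
    ps (tape q) = tape (pass q) ∧ ∀ j ≤ ((tape q).length + 1) / 2,
      2 ≤ (step^[j] (tape q)).length := by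
  obtain ⟨s, w⟩ := q
  obtain ⟨n, h1, h2, h3⟩ := pf_PAN s w h
  have hn : ((tape (s, w)).length + 1) / 2 = n := by
    cases hc : st s w
    · rw [hc] at h1
      simp only [cond_false] at h1
      omega
    · rw [hc] at h1
      simp only [cond_true] at h1
      omega
  refine ⟨?_, ?_⟩
  · unfold ps
    rw [hn, h2]
  · intro j hj
    rw [hn] at hj
    rcases Nat.lt_or_ge j n with hjn | hjn
    · exact h3 j hjn
    · have : j = n := le_antisymm hj hjn
      rw [this, h2]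
      exact h'

theorem pf_NSX (WRD : T_WRD) (LEN : T_LEN) (SIZ : T_SIZ) : T_NSX := by
  intro r n X Y ⟨i, hi⟩
  set q0 : Cf r := (false, X, Y) with hq0
  set Q : ℕ → Cf r := fun j => nx^[j] q0 with hQ
  have hbig : ∀ j ≤ n, 7 ≤ (Q j).2.1 i := by
    intro j hj
    have h1 := (SIZ r j q0 i).1.1
    have h2 : (1 : ℝ) ≤ 3 ^ PP j q0 i := one_le_pow₀ (by norm_num)
    have h3 : (2 : ℝ) ^ j ≤ 2 ^ n := pow_le_pow_right₀ (by norm_num) hj
    have h4 : (2 : ℝ) ^ (n + 3) ≤ (X i : ℝ) := by exact_mod_cast hi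
    have h5 : (2 : ℝ) ^ (n + 3) = 8 * 2 ^ n := by ring
    have h6 : (0 : ℝ) < 2 ^ j := by positivity
    have h7 : (7 : ℝ) * 2 ^ j ≤ (q0.2.1 i : ℝ) - 2 ^ j := by
      show (7 : ℝ) * 2 ^ j ≤ (X i : ℝ) - 2 ^ j
      linarith
    have h8 : (7 : ℝ) * 2 ^ j ≤ 3 ^ PP j q0 i * ((q0.2.1 i : ℝ) - 2 ^ j) := by
      have h9 : 1 * ((q0.2.1 i : ℝ) - 2 ^ j) ≤ 3 ^ PP j q0 i * ((q0.2.1 i : ℝ) - 2 ^ j) :=
        mul_le_mul_of_nonneg_right h2 (by linarith)
      linarith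
    have h10 : (7 : ℝ) * 2 ^ j ≤ 2 ^ j * (((nx^[j] q0).2.1 i : ℕ) : ℝ) := h8.trans h1
    have h11 : (7 : ℝ) ≤ (((nx^[j] q0).2.1 i : ℕ) : ℝ) := by
      by_contra hcon
      push Not at hcon
      nlinarith
    exact_mod_cast h11
  have len1 : ∀ q : Cf r, 7 ≤ q.2.1 i → 2 ≤ (tape (q.1, bw q.2.1 q.2.2)).length := by
    intro q hq
    rw [(LEN r q.1 q.2.1 q.2.2).2.1]
    have h1 : q.2.1 i + 2 * q.2.2 i ≤ LL (q.1, q.2.1, q.2.2) := by
      unfold LL
      exact Finset.single_le_sum (f := fun i => q.2.1 i + 2 * q.2.2 i) (fun _ _ => Nat.zero_le _)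
        (Finset.mem_univ i)
    have h2 : (cond q.1 1 0 : ℕ) ≤ 1 := by cases q.1 <;> simp
    omega
  have len2 : ∀ q : Cf r, 7 ≤ q.2.1 i → 2 ≤ (tape (pass (q.1, bw q.2.1 q.2.2))).length := by
    intro q hq
    rw [(LEN r q.1 q.2.1 q.2.2).2.2]
    have h1 : 2 * hf (pst q.1 q.2.1 i) (q.2.1 i) + t3 (pst q.1 q.2.1 (i + 1)) (q.2.2 i) ≤
        ∑ i : Fin r, (2 * hf (pst q.1 q.2.1 i) (q.2.1 i) +
          t3 (pst q.1 q.2.1 (i + 1)) (q.2.2 i)) :=
      Finset.single_le_sum (f := fun i : Fin r => 2 * hf (pst q.1 q.2.1 i) (q.2.1 i) +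
          t3 (pst q.1 q.2.1 (i + 1)) (q.2.2 i)) (fun _ _ => Nat.zero_le _) (Finset.mem_univ i)
    have h2 : (cond (pst q.1 q.2.1 r) 1 0 : ℕ) ≤ 1 := by
      cases pst q.1 q.2.1 r <;> simp
    have h3 : 3 ≤ hf (pst q.1 q.2.1 i) (q.2.1 i) := by
      unfold hf
      split <;> omega
    omega
  have hnx : ∀ j, Q (j + 1) = nx (Q j) := by
    intro j
    exact Function.iterate_succ_apply' nx j q0
  have hpp : ∀ j, pass (pass ((Q j).1, bw (Q j).2.1 (Q j).2.2)) =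
      ((Q (j + 1)).1, bw (Q (j + 1)).2.1 (Q (j + 1)).2.2) := by
    intro j
    rw [hnx]
    exact WRD r (Q j).1 (Q j).2.1 (Q j).2.2
  have step1 : ∀ j ≤ n, ps (tape ((Q j).1, bw (Q j).2.1 (Q j).2.2)) =
      tape (pass ((Q j).1, bw (Q j).2.1 (Q j).2.2)) ∧
      ∀ l ≤ ((tape ((Q j).1, bw (Q j).2.1 (Q j).2.2)).length + 1) / 2,
        2 ≤ (step^[l] (tape ((Q j).1, bw (Q j).2.1 (Q j).2.2))).length := fun j hj =>
    ps_tape _ (len1 _ (hbig j hj)) (len2 _ (hbig j hj))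
  have step2 : ∀ j < n, ps (tape (pass ((Q j).1, bw (Q j).2.1 (Q j).2.2))) =
      tape ((Q (j + 1)).1, bw (Q (j + 1)).2.1 (Q (j + 1)).2.2) ∧
      ∀ l ≤ ((tape (pass ((Q j).1, bw (Q j).2.1 (Q j).2.2))).length + 1) / 2,
        2 ≤ (step^[l] (tape (pass ((Q j).1, bw (Q j).2.1 (Q j).2.2)))).length := by
    intro j hj
    have h1 := ps_tape (pass ((Q j).1, bw (Q j).2.1 (Q j).2.2)) (len2 _ (hbig j hj.le))
      (by rw [hpp j]; exact len1 _ (hbig (j + 1) hj))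
    rw [hpp j] at h1
    exact h1
  have main : ∀ j ≤ n, ps^[2 * j] (wd X Y) = tape ((Q j).1, bw (Q j).2.1 (Q j).2.2) := by
    intro j
    induction j with
    | zero =>
      intro _
      exact (LEN r false X Y).1
    | succ j ih =>
      intro hj
      have h1 := ih (by omega)
      rw [show 2 * (j + 1) = 2 * j + 1 + 1 by ring, Function.iterate_succ_apply',
        Function.iterate_succ_apply', h1, (step1 j (by omega)).1, (step2 j (by omega)).1]
  refine ⟨?_, ?_⟩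
  · rw [main n le_rfl, (LEN r (Q n).1 (Q n).2.1 (Q n).2.2).2.1]
    rfl
  · intro l hl
    rcases Nat.even_or_odd' l with ⟨j, hj | hj⟩
    · have hjn : j ≤ n := by omega
      rw [hj, main j hjn]
      exact (step1 j hjn).2
    · have hjn : j < n := by omega
      have h1 : ps^[l] (wd X Y) = tape (pass ((Q j).1, bw (Q j).2.1 (Q j).2.2)) := by
        rw [hj, Function.iterate_succ_apply', main j hjn.le, (step1 j hjn.le).1]
      rw [h1]
      exact (step2 j hjn).2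

end Pool.Agent.H12.PT
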